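import Mathlib
import Pool.Agent.Helper73.Obst.Upper
import Pool.Agent.Helper61.ObstLsc
import Pool.Agent.Helper61.ObstConn

set_option autoImplicit false

namespace Pool.Agent.Results.MP_541d1f_an.InteriorMinimiser

open MeasureTheory Set Pool.Agent.Helper73.Obst Pool.Agent.Helper61
open scoped ContDiff

/-- `x` is an admissible centre (the open ball `B(x, ρ)` lies in `Ω`) at which
`y ↦ λ₁(Ω ∖ closedBall y ρ)` attains its minimum over all admissible centres. -/
def IsMinimiser (Ω : Set E3) (ρ : ℝ) (x : E3) : Prop :=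
  Metric.ball x ρ ⊆ Ω ∧ ∀ y : E3, Metric.ball y ρ ⊆ Ω →
    lam1 (Ω \ Metric.closedBall x ρ) ≤ lam1 (Ω \ Metric.closedBall y ρ)

lemma IsTest.mono {U V : Set E3} {φ : E3 → ℝ} (h : IsTest U φ) (hUV : U ⊆ V) : IsTest V φ :=
  ⟨h.1, h.2.1, h.2.2.trans hUV⟩

lemma lam1_lt_of_test {U : Set E3} {φ : E3 → ℝ} (h : IsTest U φ) {Λ : ℝ}
    (hlt : energy φ < Λ * mass φ) : lam1 U < Λ := by
  have hne : φ ≠ 0 := by
    rintro rfl
    have h1 := ObstLsc.energy_nonneg (0 : E3 → ℝ)
    have h2 : mass (0 : E3 → ℝ) = 0 := by simp [mass]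
    rw [h2] at hlt
    linarith
  have hm := ObstLsc.mass_pos h hne
  have h1 : lam1 U ≤ energy φ / mass φ := csInf_le (ObstLsc.bddBelow_quot U) ⟨φ, h, hne, rfl⟩
  have h2 : energy φ / mass φ < Λ := by rw [div_lt_iff₀ hm]; exact hlt
  linarith

lemma le_lam1 {U : Set E3} (hU : IsOpen U) (hne : U.Nonempty) {Λ : ℝ}
    (h : ∀ φ, IsTest U φ → Λ * mass φ ≤ energy φ) : Λ ≤ lam1 U := by
  apply le_csInf
  · obtain ⟨φ, h1, h2⟩ := ObstLsc.exists_isTest hU hne
    exact ⟨_, φ, h1, h2, rfl⟩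
  · rintro q ⟨φ, h1, h2, rfl⟩
    rw [le_div_iff₀ (ObstLsc.mass_pos h1 h2)]
    exact h φ h1

lemma norm_add_one_le {R : ℝ} {x : E3} (h : Metric.ball x 1 ⊆ Metric.ball 0 R) (hx : x ≠ 0) :
    ‖x‖ + 1 ≤ R := by
  have hx0 : 0 < ‖x‖ := norm_pos_iff.2 hx
  refine le_of_forall_pos_le_add fun s hs => ?_
  rcases le_or_gt 1 s with h1 | h1
  · have h2 : x ∈ Metric.ball (0 : E3) R := h (Metric.mem_ball_self one_pos)
    rw [Metric.mem_ball, dist_zero_right] at h2
    linarith
  · have h2 : x + ((1 - s) / ‖x‖) • x ∈ Metric.ball x 1 := by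
      rw [Metric.mem_ball, dist_eq_norm, add_sub_cancel_left, norm_smul, Real.norm_eq_abs,
        abs_of_pos (div_pos (by linarith) hx0), div_mul_cancel₀ _ hx0.ne']
      linarith
    have h3 := h h2
    rw [Metric.mem_ball, dist_zero_right] at h3
    have h4 : x + ((1 - s) / ‖x‖) • x = (1 + (1 - s) / ‖x‖) • x := by
      rw [add_smul, one_smul]
    rw [h4, norm_smul, Real.norm_eq_abs, abs_of_pos (by
      have := div_pos (show 0 < 1 - s by linarith) hx0
      linarith), add_mul, one_mul, div_mul_cancel₀ _ hx0.ne'] at h3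
    linarith

/-- **The obstacle need not touch the boundary.** There is a bounded domain `Ω` in three-space, a
ball with finitely many pairwise disjoint closed balls removed (in particular with smooth
boundary), such that `x ↦ λ₁(Ω ∖ closedBall x 1)` has a minimiser over the admissible centres, and
every minimiser `x` satisfies `dist(x, ∂Ω) > 1`. -/
theorem result : ∃ Ω : Set E3,
    IsOpen Ω ∧ IsConnected Ω ∧ Bornology.IsBounded Ω ∧
    (∃ (R : ℝ) (S : Finset E3) (r : E3 → ℝ), 0 < R ∧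
      (∀ p ∈ S, 0 < r p ∧ Metric.closedBall p (r p) ⊆ Metric.ball 0 R) ∧
      (∀ p ∈ S, ∀ q ∈ S, p ≠ q →
        Disjoint (Metric.closedBall p (r p)) (Metric.closedBall q (r q))) ∧
      Ω = Metric.ball 0 R \ ⋃ p ∈ S, Metric.closedBall p (r p)) ∧
    (∃ x, IsMinimiser Ω 1 x) ∧
    (∀ x, IsMinimiser Ω 1 x → 1 < Metric.infDist x (frontier Ω)) := by
  classical
  -- constants
  obtain ⟨δ, hδ⟩ : ∃ δ : ℝ, δ = 1 / 10 ^ 6 := ⟨_, rfl⟩
  obtain ⟨R, hR⟩ : ∃ R : ℝ, R = 10 ^ 12 := ⟨_, rfl⟩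
  have hδ0 : 0 < δ := by rw [hδ]; norm_num
  have hδ1 : δ ≤ 1 / 1000 := by rw [hδ]; norm_num
  have hR1 : 1000 ≤ R := by rw [hR]; norm_num
  obtain ⟨a, ha⟩ : ∃ a : E3, ‖a‖ = 6 / 5 :=
    ⟨(6 / 5 : ℝ) • EuclideanSpace.single 0 (1 : ℝ), by rw [norm_smul]; simp⟩
  have hna : ‖-a‖ = 6 / 5 := by rw [norm_neg, ha]
  have h2a : ‖a + a‖ = 12 / 5 := by
    rw [← two_smul ℝ a, norm_smul, ha]; norm_num
  -- the net of tiny holes
  obtain ⟨Z₀, hZ₀K, hZ₀fin, hZ₀cov⟩ := (show IsCompact {p : E3 | 9 / 5 ≤ ‖p‖ ∧ ‖p‖ ≤ R - 3 / 20} by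
    apply (isCompact_closedBall (0 : E3) (R - 3 / 20)).of_isClosed_subset
    · exact (isClosed_le continuous_const continuous_norm).inter
        (isClosed_le continuous_norm continuous_const)
    · intro p hp
      rw [Metric.mem_closedBall, dist_zero_right]; exact hp.2).finite_cover_balls
        (show (0 : ℝ) < 1 / 10 by norm_num)
  obtain ⟨Z, rfl⟩ : ∃ Z : Finset E3, (Z : Set E3) = Z₀ := ⟨hZ₀fin.toFinset, by simp⟩
  have hZ : ∀ p ∈ Z, 9 / 5 ≤ ‖p‖ ∧ ‖p‖ ≤ R - 3 / 20 := fun p hp => hZ₀K (by exact_mod_cast hp)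
  -- the good test function
  obtain ⟨φ₀, hφ₀, hφ₀lt⟩ := upper_two hδ hR ha
  obtain ⟨η₀, hη₀, φ, hφ, hφlt⟩ := upper_holes hφ₀ (sq_nonneg (kk δ R)) hφ₀lt Z
  -- the size of the tiny holes
  obtain ⟨η, hη0, hηη₀, hη1, hηZ⟩ : ∃ η : ℝ, 0 < η ∧ η ≤ η₀ ∧ η ≤ 1 / 100 ∧
      ∀ pq ∈ Z.offDiag, 2 * η < ‖pq.1 - pq.2‖ := by
    have h1 : ∀ᶠ η : ℝ in nhdsWithin 0 (Ioi 0), 0 < η := eventually_mem_nhdsWithin
    have h2 : ∀ᶠ η : ℝ in nhdsWithin 0 (Ioi 0), η ≤ η₀ :=
      eventually_nhdsWithin_of_eventually_nhds (Iic_mem_nhds hη₀)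
    have h3 : ∀ᶠ η : ℝ in nhdsWithin 0 (Ioi 0), η ≤ 1 / 100 :=
      eventually_nhdsWithin_of_eventually_nhds (Iic_mem_nhds (by norm_num))
    have h4 : ∀ᶠ η : ℝ in nhdsWithin 0 (Ioi 0), ∀ pq ∈ Z.offDiag, 2 * η < ‖pq.1 - pq.2‖ := by
      rw [Filter.eventually_all_finset]
      intro pq hpq
      rw [Finset.mem_offDiag] at hpq
      have h5 : 0 < ‖pq.1 - pq.2‖ := norm_pos_iff.2 (sub_ne_zero.2 hpq.2.2)
      have h6 : ∀ᶠ η : ℝ in nhds 0, η < ‖pq.1 - pq.2‖ / 2 := Iio_mem_nhds (by positivity)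
      apply eventually_nhdsWithin_of_eventually_nhds
      filter_upwards [h6] with η hη
      linarith
    obtain ⟨η, b1, b2, b3, b4⟩ := (h1.and (h2.and (h3.and h4))).exists
    exact ⟨η, b1, b2, b3, b4⟩
  -- the holes
  set S : Finset E3 := insert a (insert (-a) Z) with hS
  set r : E3 → ℝ := fun p => if p = a ∨ p = -a then δ else η with hr
  have hra : r a = δ := by simp [hr]
  have hrna : r (-a) = δ := by simp [hr]
  have hZne : ∀ p ∈ Z, p ≠ a ∧ p ≠ -a := by
    intro p hp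
    have h1 := (hZ p hp).1
    constructor
    · rintro rfl; linarith
    · rintro rfl; linarith
  have hrZ : ∀ p ∈ Z, r p = η := by
    intro p hp
    have h1 := hZne p hp
    simp [hr, h1.1, h1.2]
  have hSmem : ∀ p, p ∈ S ↔ p = a ∨ p = -a ∨ p ∈ Z := by
    intro p; simp [hS]
  have hrpos : ∀ p ∈ S, 0 < r p := by
    intro p hp
    rcases (hSmem p).1 hp with rfl | rfl | h
    · rw [hra]; exact hδ0
    · rw [hrna]; exact hδ0
    · rw [hrZ p h]; exact hη0
  have hin : ∀ p ∈ S, Metric.closedBall p (r p) ⊆ Metric.ball 0 R := by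
    intro p hp z hz
    rw [Metric.mem_closedBall, dist_eq_norm] at hz
    rw [Metric.mem_ball, dist_zero_right]
    have h1 : ‖z‖ ≤ ‖p‖ + ‖z - p‖ := by
      calc ‖z‖ = ‖p + (z - p)‖ := by congr 1; abel
        _ ≤ _ := norm_add_le _ _
    rcases (hSmem p).1 hp with rfl | rfl | h
    · rw [hra] at hz; linarith
    · rw [hrna] at hz; linarith
    · rw [hrZ p h] at hz; have := (hZ p h).2; linarith
  have hdisj : ∀ p q : E3, r p + r q < ‖p - q‖ →
      Disjoint (Metric.closedBall p (r p)) (Metric.closedBall q (r q)) := by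
    intro p q h
    apply Metric.closedBall_disjoint_closedBall
    rw [dist_eq_norm]; exact h
  have hdis : ∀ p ∈ S, ∀ q ∈ S, p ≠ q →
      Disjoint (Metric.closedBall p (r p)) (Metric.closedBall q (r q)) := by
    intro p hp q hq hpq
    apply hdisj
    have hfarZ : ∀ b : E3, ‖b‖ = 6 / 5 → ∀ z ∈ Z, δ + η < ‖b - z‖ ∧ η + δ < ‖z - b‖ := by
      intro b hb z hz
      have h1 := (hZ z hz).1
      have h2 : ‖z‖ - ‖b‖ ≤ ‖z - b‖ := norm_sub_norm_le _ _
      have h3 : ‖b - z‖ = ‖z - b‖ := norm_sub_rev _ _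
      constructor <;> linarith
    rcases (hSmem p).1 hp with rfl | rfl | hp'
    · rcases (hSmem q).1 hq with rfl | rfl | hq'
      · exact absurd rfl hpq
      · rw [hra, hrna, sub_neg_eq_add, h2a]; linarith
      · rw [hra, hrZ q hq']; exact (hfarZ _ ha q hq').1
    · rcases (hSmem q).1 hq with rfl | rfl | hq'
      · have : ‖-q - q‖ = 12 / 5 := by
          rw [← h2a, ← norm_neg (q + q)]; congr 1; abel
        rw [hra, hrna, this]; linarith
      · exact absurd rfl hpq
      · rw [hrna, hrZ q hq']; exact (hfarZ _ hna q hq').1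
    · rcases (hSmem q).1 hq with rfl | rfl | hq'
      · rw [hra, hrZ p hp']; exact (hfarZ _ ha p hp').2
      · rw [hrna, hrZ p hp']; exact (hfarZ _ hna p hp').2
      · rw [hrZ p hp', hrZ q hq']
        have := hηZ (p, q) (Finset.mem_offDiag.2 ⟨hp', hq', hpq⟩)
        simp only at this
        linarith
  -- the domain
  set Ω : Set E3 := Metric.ball 0 R \ ⋃ p ∈ S, Metric.closedBall p (r p) with hΩ
  have hΩmem : ∀ z, z ∈ Ω ↔ ‖z‖ < R ∧ δ < ‖z - a‖ ∧ δ < ‖z + a‖ ∧ ∀ p ∈ Z, η < ‖z - p‖ := by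
    intro z
    rw [hΩ, Set.mem_sdiff, Metric.mem_ball, dist_zero_right]
    simp only [Set.mem_iUnion, exists_prop, not_exists, not_and, Metric.mem_closedBall,
      dist_eq_norm, not_le]
    constructor
    · rintro ⟨h1, h2⟩
      refine ⟨h1, ?_, ?_, ?_⟩
      · have := h2 a ((hSmem a).2 (Or.inl rfl)); rwa [hra] at this
      · have := h2 (-a) ((hSmem (-a)).2 (Or.inr (Or.inl rfl)))
        rwa [hrna, sub_neg_eq_add] at this
      · intro p hp
        have := h2 p ((hSmem p).2 (Or.inr (Or.inr hp)))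
        rwa [hrZ p hp] at this
    · rintro ⟨h1, h2, h3, h4⟩
      refine ⟨h1, ?_⟩
      intro p hp
      rcases (hSmem p).1 hp with rfl | rfl | hp'
      · rw [hra]; exact h2
      · rw [hrna, sub_neg_eq_add]; exact h3
      · rw [hrZ p hp']; exact h4 p hp'
  have hΩopen : IsOpen Ω := by
    rw [hΩ]
    apply Metric.isOpen_ball.sdiff
    exact S.finite_toSet.isClosed_biUnion fun p _ => Metric.isClosed_closedBall
  have hΩconn : IsConnected Ω :=
    ObstConn.isConnected_diff_closedBalls S r (by linarith) hrpos hin hdis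
  have hΩbdd : Bornology.IsBounded Ω := Metric.isBounded_ball.subset Set.sdiff_subset
  -- the lens of good centres
  set L : Set E3 := {x : E3 | ‖x - a‖ ≤ 11 / 8 ∧ ‖x + a‖ ≤ 11 / 8} with hL
  have hLin : ∀ x ∈ L, Metric.closedBall x (101 / 100) ⊆ Ω := by
    intro x hx z hz
    obtain ⟨hx1, hx2⟩ := hx
    rw [Metric.mem_closedBall, dist_eq_norm] at hz
    have hxn : ‖x‖ ≤ 68 / 100 := by
      have h1 := parallelogram_law_with_norm ℝ x a
      have h2 : ‖x + a‖ * ‖x + a‖ ≤ (11 / 8) * (11 / 8) :=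
        mul_le_mul hx2 hx2 (norm_nonneg _) (by norm_num)
      have h3 : ‖x - a‖ * ‖x - a‖ ≤ (11 / 8) * (11 / 8) :=
        mul_le_mul hx1 hx1 (norm_nonneg _) (by norm_num)
      rw [ha] at h1
      by_contra hcon
      push Not at hcon
      nlinarith
    have hzn : ‖z‖ ≤ 169 / 100 := by
      calc ‖z‖ = ‖x + (z - x)‖ := by congr 1; abel
        _ ≤ ‖x‖ + ‖z - x‖ := norm_add_le _ _
        _ ≤ 169 / 100 := by linarith
    rw [hΩmem]
    refine ⟨by linarith, ?_, ?_, ?_⟩
    · have h1 : ‖a + a‖ ≤ ‖x + a‖ + ‖z - x‖ + ‖z - a‖ := by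
        calc ‖a + a‖ = ‖(x + a) + (z - x) - (z - a)‖ := by congr 1; abel
          _ ≤ ‖(x + a) + (z - x)‖ + ‖z - a‖ := norm_sub_le _ _
          _ ≤ _ := by linarith [norm_add_le (x + a) (z - x)]
      rw [h2a] at h1; linarith
    · have h1 : ‖a + a‖ ≤ ‖x - a‖ + ‖z - x‖ + ‖z + a‖ := by
        calc ‖a + a‖ = ‖(z + a) - ((x - a) + (z - x))‖ := by congr 1; abel
          _ ≤ ‖z + a‖ + ‖(x - a) + (z - x)‖ := norm_sub_le _ _
          _ ≤ _ := by linarith [norm_add_le (x - a) (z - x)]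
      rw [h2a] at h1; linarith
    · intro p hp
      have h1 := (hZ p hp).1
      have h2 : ‖p‖ - ‖z‖ ≤ ‖z - p‖ := by
        rw [norm_sub_rev]; exact norm_sub_norm_le _ _
      linarith
  -- zero is a good centre
  have h0L : (0 : E3) ∈ L := by
    constructor
    · rw [zero_sub, hna]; norm_num
    · rw [zero_add, ha]; norm_num
  have h0val : lam1 (Ω \ Metric.closedBall 0 1) < kk δ R ^ 2 := by
    apply lam1_lt_of_test (φ := φ) _ hφlt
    refine IsTest.mono hφ ?_
    intro z hz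
    obtain ⟨⟨⟨⟨h1, h2⟩, h3⟩, h4⟩, h5⟩ := hz
    refine ⟨?_, h2⟩
    rw [hΩmem]
    simp only [Metric.mem_ball, Metric.mem_closedBall, dist_eq_norm, not_le, sub_zero,
      sub_neg_eq_add, Set.mem_iUnion, not_exists, exists_prop, not_and] at h1 h3 h4 h5
    exact ⟨h1, h3, h4, fun p hp => lt_of_le_of_lt hηη₀ (h5 p hp)⟩
  -- admissible centres outside the lens are bad
  have hbad : ∀ x : E3, Metric.ball x 1 ⊆ Ω → x ∉ L →
      kk δ R ^ 2 ≤ lam1 (Ω \ Metric.closedBall x 1) := by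
    intro x hadm hxL
    have hxn : ‖x‖ ≤ 19 / 20 := by
      by_contra hcon
      push Not at hcon
      have hx0 : 0 < ‖x‖ := by linarith
      have h1 : ‖x‖ + 1 ≤ R := norm_add_one_le (hadm.trans Set.sdiff_subset) (norm_pos_iff.1 hx0)
      set p : E3 := x + (17 / 20 / ‖x‖) • x with hp
      have hpx : ‖p - x‖ = 17 / 20 := by
        rw [hp, add_sub_cancel_left, norm_smul, Real.norm_eq_abs,
          abs_of_pos (div_pos (by norm_num) hx0), div_mul_cancel₀ _ hx0.ne']
      have hpn : ‖p‖ = ‖x‖ + 17 / 20 := by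
        have h4 : p = (1 + 17 / 20 / ‖x‖) • x := by
          rw [hp, add_smul, one_smul]
        rw [h4, norm_smul, Real.norm_eq_abs, abs_of_pos (by
          have := div_pos (show (0 : ℝ) < 17 / 20 by norm_num) hx0
          linarith), add_mul, one_mul, div_mul_cancel₀ _ hx0.ne']
      have h2 : p ∈ {p : E3 | 9 / 5 ≤ ‖p‖ ∧ ‖p‖ ≤ R - 3 / 20} := by
        constructor
        · rw [hpn]; linarith
        · rw [hpn]; linarith
      have h3 := hZ₀cov h2
      simp only [Set.mem_iUnion, exists_prop, Finset.mem_coe] at h3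
      obtain ⟨q, hqZ, hpq⟩ := h3
      rw [Metric.mem_ball, dist_eq_norm] at hpq
      have h4 : q ∈ Metric.ball x 1 := by
        rw [Metric.mem_ball, dist_eq_norm]
        calc ‖q - x‖ = ‖(p - x) - (p - q)‖ := by congr 1; abel
          _ ≤ ‖p - x‖ + ‖p - q‖ := norm_sub_le _ _
          _ < 1 := by rw [hpx]; linarith
      have h5 := ((hΩmem q).1 (hadm h4)).2.2.2 q hqZ
      rw [sub_self, norm_zero] at h5
      linarith
    -- a small ball far from `x`
    obtain ⟨y, hy, hxy, hyΩ⟩ : ∃ y : E3, ‖y‖ = 6 / 5 ∧ 11 / 8 < ‖y - x‖ ∧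
        (∀ z ∈ Ω, δ < ‖z - y‖) ∧ 2 ≤ ‖y + y‖ ∧ (y = a ∨ y = -a) := by
      by_cases h1 : ‖x - a‖ ≤ 11 / 8
      · have h2 : 11 / 8 < ‖x + a‖ := by
          by_contra hcon
          exact hxL ⟨h1, not_lt.1 hcon⟩
        refine ⟨-a, hna, ?_, ?_, ?_, Or.inr rfl⟩
        · rw [norm_sub_rev, sub_neg_eq_add]; exact h2
        · intro z hz
          rw [sub_neg_eq_add]; exact ((hΩmem z).1 hz).2.2.1
        · have : -a + -a = -(a + a) := by abel
          rw [this, norm_neg, h2a]; norm_num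
      · refine ⟨a, ha, ?_, ?_, ?_, Or.inl rfl⟩
        · rw [norm_sub_rev]; exact not_le.1 h1
        · intro z hz
          exact ((hΩmem z).1 hz).2.1
        · rw [h2a]; norm_num
    obtain ⟨hyΩ, hyy, hya⟩ := hyΩ
    apply le_lam1 (hΩopen.sdiff Metric.isClosed_closedBall)
    · -- nonempty
      refine ⟨(101 / 100 : ℝ) • y, ?_, ?_⟩
      · rw [hΩmem]
        have hw : ‖(101 / 100 : ℝ) • y‖ = 1212 / 1000 := by
          rw [norm_smul, hy]; norm_num
        have hwy : ‖(101 / 100 : ℝ) • y - y‖ = 12 / 1000 := by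
          have : (101 / 100 : ℝ) • y - y = (1 / 100 : ℝ) • y := by
            rw [show (101 / 100 : ℝ) = 1 / 100 + 1 by norm_num, add_smul, one_smul]
            abel
          rw [this, norm_smul, hy]; norm_num
        have hwy2 : ‖(101 / 100 : ℝ) • y + y‖ = 2412 / 1000 := by
          have : (101 / 100 : ℝ) • y + y = (201 / 100 : ℝ) • y := by
            rw [show (201 / 100 : ℝ) = 101 / 100 + 1 by norm_num, add_smul, one_smul]
          rw [this, norm_smul, hy]; norm_num
        refine ⟨by rw [hw]; linarith, ?_, ?_, ?_⟩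
        · rcases hya with rfl | rfl
          · rw [hwy]; linarith
          · rw [← sub_neg_eq_add] at hwy2
            rw [neg_neg] at hwy2
            rw [hwy2]; linarith
        · rcases hya with rfl | rfl
          · rw [hwy2]; linarith
          · rw [sub_neg_eq_add] at hwy
            rw [hwy]; linarith
        · intro p hp
          have h1 := (hZ p hp).1
          have h2 : ‖p‖ - ‖(101 / 100 : ℝ) • y‖ ≤ ‖(101 / 100 : ℝ) • y - p‖ := by
            rw [norm_sub_rev]; exact norm_sub_norm_le _ _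
          rw [hw] at h2
          linarith
      · rw [Metric.mem_closedBall, dist_eq_norm, not_le]
        have h1 : ‖y - x‖ ≤ ‖(101 / 100 : ℝ) • y - x‖ + ‖(101 / 100 : ℝ) • y - y‖ := by
          calc ‖y - x‖ = ‖((101 / 100 : ℝ) • y - x) - ((101 / 100 : ℝ) • y - y)‖ := by
                congr 1; abel
            _ ≤ _ := norm_sub_le _ _
        have hwy : ‖(101 / 100 : ℝ) • y - y‖ = 12 / 1000 := by
          have : (101 / 100 : ℝ) • y - y = (1 / 100 : ℝ) • y := by
            rw [show (101 / 100 : ℝ) = 1 / 100 + 1 by norm_num, add_smul, one_smul]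
            abel
          rw [this, norm_smul, hy]; norm_num
        rw [hwy] at h1
        linarith
    · intro ψ hψ
      apply lower_bound hδ hR hxn hy hxy.le
      refine IsTest.mono hψ ?_
      intro z hz
      refine ⟨?_, ?_⟩
      · rw [Metric.mem_ball, dist_zero_right]; exact ((hΩmem z).1 hz.1).1
      · rw [Set.mem_union, not_or]
        refine ⟨hz.2, ?_⟩
        rw [Metric.mem_closedBall, dist_eq_norm, not_le]
        exact hyΩ z hz.1
  -- the minimum over the lens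
  have hLcomp : IsCompact L := by
    apply (isCompact_closedBall a (11 / 8)).of_isClosed_subset
    · exact (isClosed_le (continuous_id.sub continuous_const).norm continuous_const).inter
        (isClosed_le (continuous_id.add continuous_const).norm continuous_const)
    · intro x hx
      rw [Metric.mem_closedBall, dist_eq_norm]; exact hx.1
  have hlsc : LowerSemicontinuousOn (fun x => lam1 (Ω \ Metric.closedBall x 1)) L := by
    intro x₀ hx₀ c hc
    apply Filter.Eventually.filter_mono nhdsWithin_le_nhds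
    obtain ⟨τ, hτ, hx⟩ := ObstLsc.lam1_lsc hΩopen (hLin x₀ hx₀)
      ((lam1 (Ω \ Metric.closedBall x₀ 1) - c) / 2) (by simp only at hc; linarith)
    filter_upwards [Metric.ball_mem_nhds x₀ hτ] with x hxb
    rw [Metric.mem_ball, dist_eq_norm] at hxb
    have h1 := hx x hxb
    simp only at hc
    linarith
  obtain ⟨xs, hxsL, hxsmin⟩ := hlsc.exists_isMinOn ⟨0, h0L⟩ hLcomp
  have hball : ∀ x ∈ L, Metric.ball x 1 ⊆ Ω := fun x hx =>
    (Metric.ball_subset_closedBall.trans (Metric.closedBall_subset_closedBall (by norm_num))).trans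
      (hLin x hx)
  refine ⟨Ω, hΩopen, hΩconn, hΩbdd, ⟨R, S, r, by linarith, fun p hp => ⟨hrpos p hp, hin p hp⟩,
    hdis, hΩ⟩, ⟨xs, hball xs hxsL, ?_⟩, ?_⟩
  · intro y hy
    by_cases hyL : y ∈ L
    · exact hxsmin hyL
    · have h1 := hbad y hy hyL
      have h2 : lam1 (Ω \ Metric.closedBall xs 1) ≤ lam1 (Ω \ Metric.closedBall 0 1) :=
        hxsmin h0L
      linarith
  · intro x hx
    have hxL : x ∈ L := by
      by_contra hcon
      have h1 := hbad x hx.1 hcon
      have h2 := hx.2 0 (hball 0 h0L)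
      linarith
    have h3 := hLin x hxL
    have hfr : (frontier Ω).Nonempty := by
      rw [nonempty_frontier_iff]
      refine ⟨hΩconn.nonempty, ?_⟩
      intro huniv
      have : a ∈ Ω := by rw [huniv]; trivial
      have h4 := ((hΩmem a).1 this).2.1
      rw [sub_self, norm_zero] at h4
      linarith
    have h4 : (101 / 100 : ℝ) ≤ Metric.infDist x (frontier Ω) := by
      rw [Metric.le_infDist hfr]
      intro p hp
      by_contra hcon
      push Not at hcon
      have h5 : p ∈ Ω := h3 (by rw [Metric.mem_closedBall, dist_comm]; exact hcon.le)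
      rw [hΩopen.frontier_eq] at hp
      exact hp.2 h5
    linarith

end Pool.Agent.Results.MP_541d1f_an.InteriorMinimiser
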